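import Pool.Agent.Helper46.CU.Stmts

set_option autoImplicit false

namespace Pool.Agent.Helper46.CU

open Finset

/-- `y² + y + 1` is never divisible by nine -/
lemma cls_nine (y : ℕ) : ¬ 9 ∣ y ^ 2 + y + 1 := by
  intro h
  have h1 : (y ^ 2 + y + 1) % 9 = 0 := Nat.mod_eq_zero_of_dvd h
  have h2 : y % 9 < 9 := Nat.mod_lt _ (by norm_num)
  have h3 : (y ^ 2 + y + 1) % 9 = ((y % 9) ^ 2 + y % 9 + 1) % 9 := by
    simp [Nat.add_mod, Nat.pow_mod]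
  rw [h3] at h1
  interval_cases (y % 9) <;> simp at h1

/-- the divisors `d = gcd (s², k)` and `s² / d` are coprime -/
lemma cls_cop {s y k : ℕ} (hs : 1 ≤ s) (h0 : s ^ 2 ∣ y ^ 2 + y + 1)
    (h1 : s ^ 2 / Nat.gcd (s ^ 2) k ∣ 2 * y + k + 1) :
    Nat.Coprime (Nat.gcd (s ^ 2) k) (s ^ 2 / Nat.gcd (s ^ 2) k) := by
  rw [Nat.coprime_iff_gcd_eq_one]
  by_contra hne
  obtain ⟨p, hp, hpd⟩ := Nat.exists_prime_and_dvd hne
  have hp1 : p ∣ Nat.gcd (s ^ 2) k := dvd_trans hpd (Nat.gcd_dvd_left _ _)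
  have hp2 : p ∣ s ^ 2 / Nat.gcd (s ^ 2) k := dvd_trans hpd (Nat.gcd_dvd_right _ _)
  have hpk : p ∣ k := dvd_trans hp1 (Nat.gcd_dvd_right _ _)
  have hps : p ∣ s ^ 2 := dvd_trans hp1 (Nat.gcd_dvd_left _ _)
  have hp3 : p ∣ 2 * y + k + 1 := dvd_trans hp2 h1
  have hp4 : p ∣ 2 * y + 1 := by
    have h2 : 2 * y + k + 1 = k + (2 * y + 1) := by ring
    rw [h2] at hp3
    exact (Nat.dvd_add_right hpk).mp hp3
  have hp5 : p ∣ y ^ 2 + y + 1 := dvd_trans hps h0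
  have hp6 : p ∣ 3 := by
    have h2 : 4 * (y ^ 2 + y + 1) = (2 * y + 1) ^ 2 + 3 := by ring
    have h3 : p ∣ (2 * y + 1) ^ 2 + 3 := by
      rw [← h2]
      exact Dvd.dvd.mul_left hp5 4
    exact (Nat.dvd_add_right (Dvd.dvd.pow hp4 (by norm_num))).mp h3
  have hp7 : p = 3 := (Nat.prime_dvd_prime_iff_eq hp Nat.prime_three).mp hp6
  subst hp7
  have h3s : 3 ∣ s := hp.dvd_of_dvd_pow hps
  have h9 : 3 ^ 2 ∣ s ^ 2 := pow_dvd_pow_of_dvd h3s 2
  exact cls_nine y (dvd_trans h9 h0)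

lemma cls_dvd {s y k : ℕ} (hs : 1 ≤ s) (h0 : s ^ 2 ∣ y ^ 2 + y + 1)
    (h1 : s ^ 2 ∣ (y + k) ^ 2 + (y + k) + 1) : s ^ 2 / Nat.gcd (s ^ 2) k ∣ 2 * y + k + 1 := by
  have h2 : (y + k) ^ 2 + (y + k) + 1 = (y ^ 2 + y + 1) + k * (2 * y + k + 1) := by ring
  rw [h2] at h1
  have h3 : s ^ 2 ∣ k * (2 * y + k + 1) := (Nat.dvd_add_right h0).mp h1
  have h4 : s ^ 2 ∣ Nat.gcd (s ^ 2) k * (2 * y + k + 1) := dvd_gcd_mul_of_dvd_mul h3
  have h5 : 0 < Nat.gcd (s ^ 2) k := Nat.gcd_pos_of_pos_left _ (by positivity)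
  have h6 : Nat.gcd (s ^ 2) k * (s ^ 2 / Nat.gcd (s ^ 2) k) = s ^ 2 :=
    Nat.mul_div_cancel' (Nat.gcd_dvd_left _ _)
  rw [← h6] at h4
  have h7 : Nat.gcd (Nat.gcd (s ^ 2) k * (s ^ 2 / Nat.gcd (s ^ 2) k)) k = Nat.gcd (s ^ 2) k := by rw [h6]
  rw [h7] at h4
  exact Nat.dvd_of_mul_dvd_mul_left h5 h4

lemma cls_mod {s y k k' : ℕ} (hs : 1 ≤ s) (h0 : s ^ 2 ∣ y ^ 2 + y + 1)
    (h1 : s ^ 2 ∣ (y + k) ^ 2 + (y + k) + 1) (h1' : s ^ 2 ∣ (y + k') ^ 2 + (y + k') + 1)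
    (hd : Nat.gcd (s ^ 2) k = Nat.gcd (s ^ 2) k') : k ≡ k' [MOD s ^ 2] := by
  have h2 := cls_dvd hs h0 h1
  have h2' := cls_dvd hs h0 h1'
  have hc := cls_cop hs h0 h2
  have h6 : Nat.gcd (s ^ 2) k * (s ^ 2 / Nat.gcd (s ^ 2) k) = s ^ 2 :=
    Nat.mul_div_cancel' (Nat.gcd_dvd_left _ _)
  have m1 : k ≡ k' [MOD Nat.gcd (s ^ 2) k] := by
    have a1 : k ≡ 0 [MOD Nat.gcd (s ^ 2) k] := (Nat.modEq_zero_iff_dvd).mpr (Nat.gcd_dvd_right _ _)
    have a2 : k' ≡ 0 [MOD Nat.gcd (s ^ 2) k] := by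
      rw [hd]
      exact (Nat.modEq_zero_iff_dvd).mpr (Nat.gcd_dvd_right _ _)
    exact a1.trans a2.symm
  have m2 : k ≡ k' [MOD s ^ 2 / Nat.gcd (s ^ 2) k] := by
    have a1 : 2 * y + k + 1 ≡ 0 [MOD s ^ 2 / Nat.gcd (s ^ 2) k] := (Nat.modEq_zero_iff_dvd).mpr h2
    have a2 : 2 * y + k' + 1 ≡ 0 [MOD s ^ 2 / Nat.gcd (s ^ 2) k] := by
      rw [hd]
      exact (Nat.modEq_zero_iff_dvd).mpr h2'
    have a3 : 2 * y + k + 1 ≡ 2 * y + k' + 1 [MOD s ^ 2 / Nat.gcd (s ^ 2) k] := a1.trans a2.symm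
    have a4 : 2 * y + k ≡ 2 * y + k' [MOD s ^ 2 / Nat.gcd (s ^ 2) k] := Nat.ModEq.add_right_cancel' 1 a3
    exact Nat.ModEq.add_left_cancel' (2 * y) a4
  have m3 := (Nat.modEq_and_modEq_iff_modEq_mul hc).mp ⟨m1, m2⟩
  rw [h6] at m3
  exact m3

theorem st_CLS : ST_CLS := by
  classical
  intro r s A hr hs hrs
  by_cases hne : (clsS r s A).Nonempty
  · -- the smallest element
    obtain ⟨y, hy, hmin⟩ : ∃ y ∈ clsS r s A, ∀ x ∈ clsS r s A, y ≤ x :=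
      ⟨(clsS r s A).min' hne, (clsS r s A).min'_mem hne, fun x hx => (clsS r s A).min'_le x hx⟩
    have hmem : ∀ x, x ∈ clsS r s A ↔ (1 ≤ x ∧ x ≤ A) ∧ r ^ 2 ∣ x - 1 ∧ s ^ 2 ∣ x ^ 2 + x + 1 := by
      intro x
      unfold clsS
      rw [Finset.mem_filter, Finset.mem_Icc]
    have hy' := (hmem y).mp hy
    have hq : 0 < r ^ 2 * s ^ 2 := by positivity
    have key : (clsS r s A).card ≤ (A / (r ^ 2 * s ^ 2) + 1) * (s ^ 2).divisors.card := by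
      refine Finset.card_le_mul_card_image_of_maps_to (f := fun x => Nat.gcd (s ^ 2) (x - y)) ?_ _ ?_
      · intro x _
        rw [Nat.mem_divisors]
        exact ⟨Nat.gcd_dvd_left _ _, by positivity⟩
      · intro d _
        have hinj : Set.InjOn (fun x => x / (r ^ 2 * s ^ 2))
            (((clsS r s A).filter (fun x => Nat.gcd (s ^ 2) (x - y) = d) : Finset ℕ) : Set ℕ) := by
          intro x hx x' hx' hxx
          rw [Finset.mem_coe, Finset.mem_filter] at hx hx'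
          obtain ⟨hx1, hx2⟩ := hx
          obtain ⟨hx1', hx2'⟩ := hx'
          have hyx := hmin x hx1
          have hyx' := hmin x' hx1'
          obtain ⟨k, rfl⟩ := Nat.exists_eq_add_of_le hyx
          obtain ⟨k', rfl⟩ := Nat.exists_eq_add_of_le hyx'
          have a := (hmem (y + k)).mp hx1
          have a' := (hmem (y + k')).mp hx1'
          rw [Nat.add_sub_cancel_left] at hx2 hx2'
          have m1 := cls_mod hs hy'.2.2 a.2.2 a'.2.2 (by rw [hx2, hx2'])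
          have m2 : y + k ≡ y + k' [MOD s ^ 2] := Nat.ModEq.add_left y m1
          have m3 : y + k ≡ y + k' [MOD r ^ 2] := by
            have b : ∀ x, 1 ≤ x → r ^ 2 ∣ x - 1 → 1 ≡ x [MOD r ^ 2] := fun x hx h => (Nat.modEq_iff_dvd' hx).mpr h
            exact (b _ a.1.1 a.2.1).symm.trans (b _ a'.1.1 a'.2.1)
          have hcop : Nat.Coprime (r ^ 2) (s ^ 2) := Nat.Coprime.pow 2 2 hrs
          have m4 := (Nat.modEq_and_modEq_iff_modEq_mul hcop).mp ⟨m3, m2⟩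
          have e1 := Nat.div_add_mod (y + k) (r ^ 2 * s ^ 2)
          have e2 := Nat.div_add_mod (y + k') (r ^ 2 * s ^ 2)
          have hxx' : (y + k) / (r ^ 2 * s ^ 2) = (y + k') / (r ^ 2 * s ^ 2) := hxx
          rw [← e1, ← e2, hxx', m4]
        have hmaps : ∀ x ∈ (clsS r s A).filter (fun x => Nat.gcd (s ^ 2) (x - y) = d),
            x / (r ^ 2 * s ^ 2) ∈ Finset.range (A / (r ^ 2 * s ^ 2) + 1) := by
          intro x hx
          rw [Finset.mem_filter] at hx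
          have a := (hmem x).mp hx.1
          rw [Finset.mem_range, Nat.lt_succ_iff]
          exact Nat.div_le_div_right a.1.2
        have := Finset.card_le_card_of_injOn _ hmaps hinj
        rwa [Finset.card_range] at this
    have hcast : ((A / (r ^ 2 * s ^ 2) : ℕ) : ℝ) ≤ (A : ℝ) / ((r : ℝ) * s) ^ 2 := by
      refine le_trans Nat.cast_div_le ?_
      push_cast
      rw [mul_pow]
    have k1 : ((clsS r s A).card : ℝ) ≤ ((A / (r ^ 2 * s ^ 2) : ℕ) + 1 : ℝ) * ((s ^ 2).divisors.card : ℝ) := by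
      exact_mod_cast key
    refine le_trans k1 ?_
    rw [mul_comm]
    apply mul_le_mul_of_nonneg_left _ (Nat.cast_nonneg _)
    linarith
  · rw [Finset.not_nonempty_iff_eq_empty] at hne
    rw [hne, Finset.card_empty]
    have : (0 : ℝ) ≤ (A : ℝ) / ((r : ℝ) * s) ^ 2 := by positivity
    have h2 : (0 : ℝ) ≤ ((s ^ 2).divisors.card : ℝ) := Nat.cast_nonneg _
    push_cast
    positivity

end Pool.Agent.Helper46.CU
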